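import Mathlib
import Pool.Agent.Hartshorne.BuildZ

namespace Pool.Agent.Results.MP_014caa_ag.DegreeSum

open MvPolynomial

/-- Let `X ⊆ ℙ^N` be a nonsingular irreducible variety of dimension `n < N` with homogeneous prime
ideal `I`, and let `c = N - n` be its codimension. Suppose that at one point of `X` there are `c`
forms in `I`, of degrees at most `d 1, ..., d c` (all `d k ≥ 2`), with linearly independent
gradients. If `N > ∑ k, (3 * d k - 2)`, then `I` is generated by `c` forms, of degrees at most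
`d 1, ..., d c`; in particular `X` is a complete intersection. -/
theorem result (N n : ℕ) (hn : n < N) (d : Fin (N - n) → ℕ) (hd : ∀ k, 2 ≤ d k)
    (hN : ∑ k, (3 * d k - 2) < N)
    (I : Ideal (MvPolynomial (Fin (N + 1)) ℂ))
    (hom : ∀ h ∈ I, ∀ e : ℕ, homogeneousComponent e h ∈ I)
    (hI : I.IsPrime)
    (hdim : ringKrullDim (MvPolynomial (Fin (N + 1)) ℂ ⧸ I) = ((n + 1 : ℕ) : WithBot ℕ∞))
    (hsm : ∀ p : Fin (N + 1) → ℂ, p ≠ 0 → (∀ h ∈ I, eval p h = 0) →
      ∃ q : Fin (N - n) → MvPolynomial (Fin (N + 1)) ℂ, (∀ k, q k ∈ I) ∧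
        LinearIndependent ℂ (fun k => fun j => eval p (pderiv j (q k))))
    (hcut : ∃ p : Fin (N + 1) → ℂ, p ≠ 0 ∧ (∀ h ∈ I, eval p h = 0) ∧
      ∃ q : Fin (N - n) → MvPolynomial (Fin (N + 1)) ℂ,
        (∀ k, q k ∈ I ∧ ∃ e ≤ d k, (q k).IsHomogeneous e) ∧
        LinearIndependent ℂ (fun k => fun j => eval p (pderiv j (q k)))) :
    ∃ f : Fin (N - n) → MvPolynomial (Fin (N + 1)) ℂ,
      (∀ k, ∃ e ≤ d k, (f k).IsHomogeneous e) ∧ Ideal.span (Set.range f) = I := by
  refine Pool.Agent.Hartshorne.core_mixed (N - n) (by omega) d hd ?_ I hI hom ?_ hsm hcut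
  · have h1 : ∑ k, (3 * d k - 2) = 3 * ∑ k, (d k - 1) + (N - n) := by
      have h2 : ∑ k, (3 * d k - 2) = ∑ k : Fin (N - n), (3 * (d k - 1) + 1) :=
        Finset.sum_congr rfl (fun k _ => by have := hd k; omega)
      rw [h2, Finset.sum_add_distrib, ← Finset.mul_sum]
      simp
    rw [Fintype.card_fin]
    omega
  · rw [hdim, Fintype.card_fin]
    exact_mod_cast (by omega : N + 1 ≤ n + 1 + (N - n))

end Pool.Agent.Results.MP_014caa_ag.DegreeSum
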