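import Mathlib
import Pool.Agent.HartE.Main

namespace Pool.Agent.Results.MP_014caa_ag.ExponentialDegree

open MvPolynomial

/-- Let `X ⊆ ℙ^N` be a nonsingular irreducible variety of dimension `n < N`, of codimension
`c = N - n` and degree `δ`, not contained in a hyperplane, with homogeneous prime ideal `I` (the
degree is defined by the growth of the Hilbert function: the dimension of the degree `j` part of
the coordinate ring is asymptotically `δ j ^ n / n!`). Let `k ≥ 2` be an integer with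
`δ < 2 ^ (c - 1) k` and `N > c (3 k - 4)`, and if `k ≤ 3` suppose also that `N ≥ 2 c k - 2`. Then
`X` is a complete intersection: `I` is generated by `c` forms, of degrees `e i + 1` with
`e i ≥ 1` and `∑ e i ≤ c (k - 2)`. For `k = 2` the conclusion is impossible: so `δ ≥ 2 ^ c` as
soon as `N > 2 c` and `N ≥ 4 c - 2`. -/
theorem result (N n δ k : ℕ) (hn : n < N) (hk : 2 ≤ k) (hδ : δ < 2 ^ (N - n - 1) * k)
    (hN : (N - n) * (3 * k - 4) < N) (hN' : k ≤ 3 → 2 * (N - n) * k ≤ N + 2)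
    (I : Ideal (MvPolynomial (Fin (N + 1)) ℂ))
    (hom : ∀ h ∈ I, ∀ e : ℕ, homogeneousComponent e h ∈ I)
    (hI : I.IsPrime)
    (hdim : ringKrullDim (MvPolynomial (Fin (N + 1)) ℂ ⧸ I) = ((n + 1 : ℕ) : WithBot ℕ∞))
    (hdeg : Filter.Tendsto
      (fun j : ℕ => (Module.finrank ℂ ((homogeneousSubmodule (Fin (N + 1)) ℂ j).map
        (Ideal.Quotient.mkₐ ℂ I).toLinearMap) : ℝ) / (j : ℝ) ^ n)
      Filter.atTop (nhds ((δ : ℝ) / n.factorial)))
    (hsm : ∀ p : Fin (N + 1) → ℂ, p ≠ 0 → (∀ h ∈ I, eval p h = 0) →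
      ∃ q : Fin (N - n) → MvPolynomial (Fin (N + 1)) ℂ, (∀ k, q k ∈ I) ∧
        LinearIndependent ℂ (fun k => fun j => eval p (pderiv j (q k))))
    (hnd : ∀ l ∈ I, l.IsHomogeneous 1 → l = 0) :
    ∃ (f : Fin (N - n) → MvPolynomial (Fin (N + 1)) ℂ) (e : Fin (N - n) → ℕ),
      (∀ i, 1 ≤ e i ∧ (f i).IsHomogeneous (e i + 1)) ∧ ∑ i, e i ≤ (N - n) * (k - 2) ∧
      Ideal.span (Set.range f) = I := by
  obtain ⟨c, hc⟩ : ∃ c, N - n = c := ⟨_, rfl⟩
  have hN'' : 2 * c + 2 * (c * ((k + 1) / 2)) ≤ N + 2 := by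
    rw [hc] at hN hN'
    rcases Nat.lt_or_ge 3 k with h3 | h3
    · have h4 : 2 * (c * ((k + 1) / 2)) ≤ c * (k + 1) := by
        have h5 : 2 * ((k + 1) / 2) ≤ k + 1 := by omega
        nlinarith
      have h6 : 3 * k - 4 = (k + 3) + (2 * k - 7) := by omega
      rw [h6, mul_add] at hN
      have h7 : 0 ≤ c * (2 * k - 7) := Nat.zero_le _
      nlinarith
    · have h4 := hN' h3
      have h5 : k = 2 ∨ k = 3 := by omega
      rcases h5 with rfl | rfl
      · norm_num
        nlinarith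
      · norm_num
        nlinarith
  have h1 : (N - n) * (3 * k - 4) = 2 * (N - n) + 3 * ((N - n) * (k - 2)) := by
    have h2 : 3 * k - 4 = 2 + 3 * (k - 2) := by omega
    rw [h2]
    ring
  rw [← hc] at hN''
  refine Pool.Agent.HartE.core_exp (n := n) δ k ((k + 1) / 2) (by omega) hk (by omega)
    (by omega) hδ ?_ ?_ ?_ I hI hom hdim hdeg hsm hnd
  · rw [Fintype.card_fin]
    omega
  · rw [Fintype.card_fin]
    omega
  · rw [Fintype.card_fin]
    omega

end Pool.Agent.Results.MP_014caa_ag.ExponentialDegree
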