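import Mathlib
import Pool.Agent.HartA.AutFinal

namespace Pool.Agent.Results.MP_014caa_ag.FiniteAutomorphisms

open MvPolynomial

/-- Let `X ⊆ ℙ^N` be a nonsingular irreducible variety of dimension `n < N`, not contained in a
hyperplane, with homogeneous prime ideal `I`, of codimension `c = N - n < N / 4`. Then either
`X` is a quadric hypersurface, or only finitely many linear automorphisms of `ℙ^N` map `X` to
itself: there is a finite set of matrices such that every invertible matrix that maps the cone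
over `X` to itself is a scalar multiple of a matrix of this set. -/
theorem result (N n : ℕ) (hn : n < N) (hN : 4 * (N - n) < N)
    (I : Ideal (MvPolynomial (Fin (N + 1)) ℂ))
    (hom : ∀ h ∈ I, ∀ e : ℕ, homogeneousComponent e h ∈ I)
    (hI : I.IsPrime)
    (hdim : ringKrullDim (MvPolynomial (Fin (N + 1)) ℂ ⧸ I) = ((n + 1 : ℕ) : WithBot ℕ∞))
    (hsm : ∀ p : Fin (N + 1) → ℂ, p ≠ 0 → (∀ h ∈ I, eval p h = 0) →
      ∃ q : Fin (N - n) → MvPolynomial (Fin (N + 1)) ℂ, (∀ i, q i ∈ I) ∧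
        LinearIndependent ℂ (fun i => fun j => eval p (pderiv j (q i))))
    (hnd : ∀ l ∈ I, l.IsHomogeneous 1 → l = 0) :
    (N - n = 1 ∧ ∃ g : MvPolynomial (Fin (N + 1)) ℂ, g.IsHomogeneous 2 ∧ Ideal.span {g} = I) ∨
    ∃ S : Set (Matrix (Fin (N + 1)) (Fin (N + 1)) ℂ), S.Finite ∧
      ∀ A : Matrix (Fin (N + 1)) (Fin (N + 1)) ℂ, IsUnit A.det →
        (∀ p, (∀ h ∈ I, eval p h = 0) → ∀ h ∈ I, eval (A.mulVec p) h = 0) →
        ∃ B ∈ S, ∃ μ : ℂ, A = μ • B := by
  refine Pool.Agent.HartA.core_aut (by omega) (by rw [Fintype.card_fin]; omega) I hI hom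
    ?_ hsm hnd
  rw [hdim, Fintype.card_fin]
  exact_mod_cast (by omega : N + 1 ≤ n + 1 + (N - n))

end Pool.Agent.Results.MP_014caa_ag.FiniteAutomorphisms
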