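import Mathlib
import Pool.Agent.HartN.FinalL

namespace Pool.Agent.Results.MP_014caa_ag.FreeLine

open MvPolynomial

/-- Let `X ⊆ ℙ^N` be a nonsingular irreducible variety of dimension `n < N`, not contained in a
hyperplane, with homogeneous prime ideal `I`, and let `c = N - n` be its codimension. Write
`T p` for the tangent space of the cone of `X` at `p`. Suppose that `X` contains a line
`⟨x, w⟩` which is free (every `a ∈ T x` extends to a section `s a + t b` of the tangent spaces
`T (s x + t w)`; equivalently the tangent bundle of `X` restricted to the line is globally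
generated), and that the intersection of all the spaces `T (s x + t w)` has dimension at least
`n + 1 - r` (for a free line this dimension is the degree of the anticanonical bundle). If
`N > 2 (c + r) + min (r, c max (r - c - 1, 0))`, in particular if `N > 2 c + 3 r`, then `X` is a
complete intersection: `I` is generated by `c` forms of degrees `e k ≥ 2` with
`∑ (e k - 1) ≤ r`. -/
theorem result (N n r : ℕ) (hn : n < N)
    (hN : 2 * ((N - n) + r) + min r ((N - n) * (r - (N - n) - 1)) < N)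
    (I : Ideal (MvPolynomial (Fin (N + 1)) ℂ))
    (hom : ∀ h ∈ I, ∀ e : ℕ, homogeneousComponent e h ∈ I)
    (hI : I.IsPrime)
    (hdim : ringKrullDim (MvPolynomial (Fin (N + 1)) ℂ ⧸ I) = ((n + 1 : ℕ) : WithBot ℕ∞))
    (hsm : ∀ p : Fin (N + 1) → ℂ, p ≠ 0 → (∀ h ∈ I, eval p h = 0) →
      ∃ q : Fin (N - n) → MvPolynomial (Fin (N + 1)) ℂ, (∀ k, q k ∈ I) ∧
        LinearIndependent ℂ (fun k => fun j => eval p (pderiv j (q k))))
    (hnd : ∀ l ∈ I, l.IsHomogeneous 1 → l = 0)
    (x w : Fin (N + 1) → ℂ) (hxw : LinearIndependent ℂ ![x, w])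
    (hline : ∀ s t : ℂ, ∀ h ∈ I, eval (s • x + t • w) h = 0)
    (hfree : ∀ a : Fin (N + 1) → ℂ, (∀ h ∈ I, ∑ j, eval x (pderiv j h) * a j = 0) →
      ∃ b : Fin (N + 1) → ℂ, ∀ s t : ℂ, ∀ h ∈ I,
        ∑ j, eval (s • x + t • w) (pderiv j h) * (s * a j + t * b j) = 0)
    (T : Submodule ℂ (Fin (N + 1) → ℂ)) (hTr : n + 1 ≤ Module.finrank ℂ T + r)
    (hT : ∀ a ∈ T, ∀ s t : ℂ, ∀ h ∈ I, ∑ j, eval (s • x + t • w) (pderiv j h) * a j = 0) :
    ∃ (f : Fin (N - n) → MvPolynomial (Fin (N + 1)) ℂ) (e : Fin (N - n) → ℕ),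
      (∀ k, 2 ≤ e k ∧ (f k).IsHomogeneous (e k)) ∧ ∑ k, (e k - 1) ≤ r ∧
      Ideal.span (Set.range f) = I := by
  have hTle : T ≤ Pool.Agent.Hartshorne.tanLine I x w := by
    intro a ha
    rw [Pool.Agent.Hartshorne.mem_tanLine]
    intro s t h hh
    exact hT a ha s t h hh
  have hfin := Submodule.finrank_mono hTle
  refine Pool.Agent.Hartshorne.core_freeL r (by omega) ?_ I hI hom ?_ hsm hnd hxw hline ?_ ?_
  · rw [Fintype.card_fin]
    omega
  · rw [hdim, Fintype.card_fin]
    exact_mod_cast (by omega : N + 1 ≤ n + 1 + (N - n))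
  · intro a ha
    obtain ⟨b, hb⟩ := hfree a ha
    exact ⟨b, fun s t h hh => hb s t h hh⟩
  · rw [Fintype.card_fin]
    omega

end Pool.Agent.Results.MP_014caa_ag.FreeLine
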